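import Pool.Agent.H358R3.Zab6
set_option autoImplicit false

/-! # The first-order theory of the ring of abelian algebraic integers is undecidable

`Qab` is the subfield of `ℂ` generated over `ℚ` by all roots of unity, and `Zab = 𝓞 Qab` is its ring
of integers. The ring `ℤ` is definable in `Zab`: the roots of unity are the products of two units `u`
for which `1 - u ^ 4` is a unit, and `x` is an integer iff for every root of unity `ζ` there is a root
of unity `η` such that `(1 - ζ) ^ 2` divides `x * (1 - ζ) - (1 - η)`. -/

namespace Pool.Agent.Results.MP_5e144c_lc.ZabUndecidable

open FirstOrder FirstOrder.Language Pool.Agent.H358R3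

/-- No algorithm decides, given a first-order sentence in the language of rings, whether it is true
in the ring `ℤ^ab` of all abelian algebraic integers. -/
theorem result : ¬ Pool.Agent.Helper967.TR.DecidableTheory Zab := zab_undecidable

end Pool.Agent.Results.MP_5e144c_lc.ZabUndecidable
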